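import Pool.Agent.YTDM.P52
import Pool.Agent.YTDM.RedStat

/-!
# The effective Yau-Tian-Donaldson conjecture is false

The definitions are in `Pool/Agent/YTDA/FinDefs.lean` (and `hess`, `scal` in
`Pool/Agent/YTDA/Defs.lean`): `LineBundle` (holomorphic line bundles given by transition functions),
`NoVectorField`, `LineBundle.IsAmple`, `LineBundle.KMetric` (smooth hermitian metrics on `L` with
positive curvature, that is Kähler metrics in `c₁(L)`), `LineBundle.KMetric.IsCsc`,
`LineBundle.TestConfiguration`; and in `Pool/Agent/YTDM/RedStat.lean`: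
`LineBundle.TestConfiguration.Reduced` (the central fibre is reduced),
`LineBundle.TestConfiguration.IsProduct`.

The manifold `M` has no holomorphic vector fields. So `Aut_red(M)` and its Levi subgroup are
trivial, every test configuration is equivariant under it, and the products are the test
configurations `M × ℂ` with `ℂˣ` acting by scalars on `L ^ r`; their central fibre `M` is reduced
and irreducible. So for every `m ≥ 1` the pair `(M, L)` satisfies the restricted condition of the
conjecture (`DF ≥ 0` for every test configuration whose central fibre is reduced with at most `m`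
irreducible components, with equality exactly for the products), but there is no Kähler metric of
constant scalar curvature in `c₁(L)`.
-/

set_option autoImplicit false

namespace Pool.Agent.Results.MP_456a86_ag.Disproof

open Pool.Agent.YTDA Manifold ContDiff

/-- There are a compact connected complex manifold `M` of dimension four without non-zero
holomorphic vector fields and an ample line bundle `L` on `M` such that all test configurations of
`(M, L)` have `DF ≥ 0`, those with reduced central fibre have `DF = 0` if and only if they are
products, but there is no Kähler metric of constant scalar curvature in `c₁(L)` (which does contain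
Kähler metrics). -/
theorem result : ∃ (M : Type) (_ : TopologicalSpace M) (_ : ChartedSpace (E 4) M)
    (_ : IsManifold 𝓘(ℂ, E 4) ω M) (L : LineBundle 4 M),
    CompactSpace M ∧ T2Space M ∧ ConnectedSpace M ∧ NoVectorField 4 M ∧ L.IsAmple ∧
    (∀ r > 0, ∀ χ : L.TestConfiguration r, ∀ a₀ a₁ b₀ b₁ c₀ : ℝ, χ.Expansion a₀ a₁ b₀ b₁ c₀ →
      0 ≤ (b₀ * a₁ - a₀ * b₁) / a₀ ^ 2 ∧
      (χ.Reduced → ((b₀ * a₁ - a₀ * b₁) / a₀ ^ 2 = 0 ↔ χ.IsProduct))) ∧
    Nonempty L.KMetric ∧ ∀ m : L.KMetric, ¬ m.IsCsc := by
  obtain ⟨K, i1, i2, T, γ, D₀, hfix, hD, M, t, ch, mf, L, h1, h2, h3, h4, h5, ⟨R⟩, h6, h7⟩ :=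
    main_ring
  refine ⟨M, t, ch, mf, L, h1, h2, h3, h4, h5, ?_, h6, h7⟩
  intro r hr χ a₀ a₁ b₀ b₁ c₀ hE
  rw [mul_comm b₀ a₁]
  exact LineBundle.fut_of_ringIso R hfix hD one_pos hr χ hE

end Pool.Agent.Results.MP_456a86_ag.Disproof
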